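import Pool.Agent.W69.MH.Defs

set_option autoImplicit false

/-!
# MH, task SEM: the numerical semigroup argument
-/

namespace Pool.Agent.W372.MH
open Pool.Agent.W69.MH

namespace SEM

theorem bez (m : ℕ) (S : Finset ℕ) (q0 : ℕ)
    (hm : ∀ q ∈ S, (m : ℤ) ∣ (q : ℤ) - q0)
    (h : ∀ l : ℕ, l.Prime → ∃ q ∈ S, ¬ ((m * l : ℕ) : ℤ) ∣ (q : ℤ) - (q0 : ℤ)) :
    ∃ z : ℕ → ℤ, (m : ℤ) = ∑ q ∈ S, z q * ((q : ℤ) - q0) := by
  obtain ⟨g, hg⟩ : ∃ g : ℤ, Ideal.span ((fun q : ℕ => (q : ℤ) - q0) '' (S : Set ℕ)) =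
      Ideal.span {g} := (IsPrincipalIdealRing.principal _).principal
  have h1 : ∀ q ∈ S, g ∣ (q : ℤ) - q0 := by
    intro q hq
    rw [← Ideal.mem_span_singleton, ← hg]
    exact Ideal.subset_span ⟨q, hq, rfl⟩
  have h2 : g ∈ Ideal.span ((fun q : ℕ => (q : ℤ) - q0) '' (S : Set ℕ)) := by
    rw [hg]
    exact Ideal.mem_span_singleton_self g
  obtain ⟨z, hz⟩ : ∃ z : ℕ → ℤ, ∑ q ∈ S, z q • ((q : ℤ) - q0) = g := by
    obtain ⟨c, hc⟩ := (Submodule.mem_span_image_finset_iff_exists_fun ℤ).1 h2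
    refine ⟨fun q => if h : q ∈ S then c ⟨q, h⟩ else 0, ?_⟩
    rw [← hc, ← Finset.sum_coe_sort]
    refine Finset.sum_congr rfl fun q _ => ?_
    simp only [dif_pos q.2]
  have h3 : (m : ℤ) ∣ g := by
    rw [← hz]
    exact Finset.dvd_sum fun q hq => (hm q hq).mul_left _
  obtain ⟨g', hg'⟩ := h3
  have h4 : g'.natAbs = 1 := by
    by_contra h5
    obtain ⟨l, hl, hlg⟩ := Nat.exists_prime_and_dvd h5
    obtain ⟨q, hq, hq'⟩ := h l hl
    apply hq'
    refine Dvd.dvd.trans ?_ (h1 q hq)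
    rw [hg']
    push_cast
    exact mul_dvd_mul_left _ (Int.natCast_dvd.2 hlg)
  have h5 : g' * g' = 1 := by
    rcases Int.natAbs_eq_iff.1 h4 with h6 | h6 <;> rw [h6] <;> rfl
  refine ⟨fun q => g' * z q, ?_⟩
  have h6 : ∑ q ∈ S, (g' * z q) * ((q : ℤ) - q0) = g' * g := by
    rw [← hz, Finset.mul_sum]
    refine Finset.sum_congr rfl fun q _ => ?_
    rw [smul_eq_mul]
    ring
  rw [h6, hg']
  linear_combination (-(m : ℤ)) * h5

theorem rep (m X : ℕ) (S : Finset ℕ) (q0 q1 : ℕ) (hq1 : q1 ∈ S) (h01 : q0 < q1)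
    (hS : ∀ q ∈ S, q0 ≤ q ∧ q ≤ X) (hc : S.card ≤ X) (z : ℕ → ℤ)
    (hz : (m : ℤ) = ∑ q ∈ S, z q * ((q : ℤ) - q0)) (t : ℤ) (ht : (m : ℤ) ∣ t)
    (htX : (X : ℤ) ^ 3 ≤ t) : ∃ x : ℕ → ℕ, t = ∑ q ∈ S, (x q : ℤ) * ((q : ℤ) - q0) := by
  obtain ⟨k, hk⟩ := ht
  obtain ⟨D, hD⟩ : ∃ D : ℤ, D = (q1 : ℤ) - q0 := ⟨_, rfl⟩
  have hD0 : 0 < D := by omega
  have hDX : D ≤ X := by
    have := (hS q1 hq1).2
    omega
  obtain ⟨w, hw⟩ : ∃ w : ℤ, w = k * z q1 + ∑ q ∈ S.erase q1, (k * z q / D) * ((q : ℤ) - q0) :=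
    ⟨_, rfl⟩
  have h1 : t = w * D + ∑ q ∈ S.erase q1, (k * z q % D) * ((q : ℤ) - q0) := by
    rw [hk, hz, ← Finset.add_sum_erase _ _ hq1, ← hD, add_mul, Finset.sum_mul, hw, add_mul,
      Finset.sum_mul, add_assoc, ← Finset.sum_add_distrib]
    congr 1
    · ring
    · refine Finset.sum_congr rfl fun q _ => ?_
      have := Int.emod_add_mul_ediv (k * z q) D
      linear_combination (-((q : ℤ) - q0)) * this
  have h2 : ∑ q ∈ S.erase q1, (k * z q % D) * ((q : ℤ) - q0) ≤ (X : ℤ) ^ 3 := by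
    calc ∑ q ∈ S.erase q1, (k * z q % D) * ((q : ℤ) - q0)
        ≤ ∑ q ∈ S.erase q1, (X : ℤ) * X := by
          refine Finset.sum_le_sum fun q hq => ?_
          obtain ⟨h3, h4⟩ := hS q (Finset.mem_of_mem_erase hq)
          have h5 := Int.emod_nonneg (k * z q) hD0.ne'
          have h6 := Int.emod_lt_of_pos (k * z q) hD0
          exact mul_le_mul (by omega) (by omega) (by omega) (by omega)
      _ = ((S.erase q1).card : ℤ) * (X * X) := by
          rw [Finset.sum_const, nsmul_eq_mul]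
      _ ≤ (X : ℤ) * (X * X) := by
          refine mul_le_mul_of_nonneg_right ?_ (by positivity)
          have := Finset.card_erase_le (s := S) (a := q1)
          exact_mod_cast this.trans hc
      _ = (X : ℤ) ^ 3 := by ring
  have h3 : 0 ≤ w := by
    by_contra h4
    push Not at h4
    have := mul_neg_of_neg_of_pos h4 hD0
    linarith
  refine ⟨fun q => if q = q1 then w.toNat else (k * z q % D).toNat, ?_⟩
  rw [← Finset.add_sum_erase _ _ hq1]
  simp only [if_true]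
  rw [Int.toNat_of_nonneg h3, ← hD]
  refine h1.trans ?_
  congr 1
  refine Finset.sum_congr rfl fun q hq => ?_
  rw [if_neg (Finset.ne_of_mem_erase hq),
    Int.toNat_of_nonneg (Int.emod_nonneg (k * z q) hD0.ne')]

theorem step (m u p : ℕ) (P : ℕ → Prop)
    (h5 : ∀ f : Fin (p + 1) → ℕ, (∀ i, P (f i) ∧ f i % m = u % m) → P (∑ i, f i - 1))
    (x : ℕ) (hx : P x ∧ x % m = u % m) (L : List ℕ) (hL : L.length = p)
    (hL' : ∀ y ∈ L, P y ∧ y % m = u % m) : P (x + L.sum - 1) := by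
  subst hL
  have h := h5 (Fin.cons x (fun i : Fin L.length => L[i.1])) (by
    intro i
    refine Fin.cases ?_ (fun i => ?_) i
    · exact hx
    · rw [Fin.cons_succ]
      exact hL' _ (List.getElem_mem _))
  rw [Fin.sum_univ_succ, Fin.cons_zero] at h
  simp only [Fin.cons_succ] at h
  rw [Fin.sum_univ_getElem] at h
  exact h

theorem gen (m u p : ℕ) (S : Finset ℕ) (P : ℕ → Prop) (hm : 2 ≤ m)
    (h1 : ∀ q ∈ S, m < q ∧ q % m = u % m) (hp : (p * u) % m = 1)
    (h4 : ∀ q ∈ S, P q)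
    (h5 : ∀ f : Fin (p + 1) → ℕ, (∀ i, P (f i) ∧ f i % m = u % m) → P (∑ i, f i - 1)) (j : ℕ) :
    ∀ L : List ℕ, L.length = 1 + p * j → (∀ q ∈ L, q ∈ S) →
      j < L.sum ∧ P (L.sum - j) ∧ (L.sum - j) % m = u % m := by
  have hp0 : 1 ≤ p := by
    rcases Nat.eq_zero_or_pos p with h | h
    · rw [h] at hp
      simp at hp
    · exact h
  induction j with
  | zero =>
    intro L hL hLS
    rw [mul_zero, add_zero] at hL
    obtain ⟨q, rfl⟩ := List.length_eq_one_iff.1 hL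
    have hq := hLS q (by simp)
    simp only [List.sum_cons, List.sum_nil, add_zero, Nat.sub_zero]
    exact ⟨by have := (h1 q hq).1; omega, h4 q hq, (h1 q hq).2⟩
  | succ j ih =>
    intro L hL hLS
    obtain ⟨A, hA⟩ : ∃ A, A = L.take (1 + p * j) := ⟨_, rfl⟩
    obtain ⟨B, hB⟩ : ∃ B, B = L.drop (1 + p * j) := ⟨_, rfl⟩
    have hAB : A ++ B = L := by
      rw [hA, hB]
      exact List.take_append_drop _ _
    have hAl : A.length = 1 + p * j := by
      rw [hA, List.length_take, hL]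
      refine min_eq_left ?_
      rw [mul_add]
      omega
    have hBl : B.length = p := by
      rw [hB, List.length_drop, hL, mul_add]
      omega
    have hsum : L.sum = A.sum + B.sum := by rw [← hAB, List.sum_append]
    have hAS : ∀ q ∈ A, q ∈ S := fun q hq => hLS q (by rw [← hAB]; exact List.mem_append_left _ hq)
    have hBS : ∀ q ∈ B, q ∈ S := fun q hq => hLS q (by rw [← hAB]; exact List.mem_append_right _ hq)
    obtain ⟨ih1, ih2, ih3⟩ := ih A hAl hAS
    have h6 := step m u p P h5 (A.sum - j) ⟨ih2, ih3⟩ B hBl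
      (fun y hy => ⟨h4 y (hBS y hy), (h1 y (hBS y hy)).2⟩)
    have h7 : B.sum ≡ p * u [MOD m] := by
      have : ∀ C : List ℕ, (∀ q ∈ C, q ∈ S) → C.sum ≡ C.length * u [MOD m] := by
        intro C hC
        induction C with
        | nil => simp [Nat.ModEq]
        | cons a C ihC =>
          rw [List.sum_cons, List.length_cons, add_mul, one_mul, add_comm]
          exact (ihC fun q hq => hC q (List.mem_cons_of_mem _ hq)).add
            ((h1 a (hC a (by simp))).2)
      have h8 := this B hBS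
      rwa [hBl] at h8
    have h8 : 1 ≤ B.sum := by
      by_contra h9
      have h10 : B.sum = 0 := by omega
      rw [h10] at h7
      have h11 : (p * u) % m = 0 := by
        have : 0 % m = (p * u) % m := h7
        rw [← this]
        simp
      omega
    have e1 : A.sum - j + B.sum - 1 = L.sum - (j + 1) := by omega
    rw [e1] at h6
    refine ⟨by omega, h6, ?_⟩
    have h9 : (L.sum - (j + 1)) + 1 = (A.sum - j) + B.sum := by omega
    have h10 : (L.sum - (j + 1)) + 1 ≡ u + 1 [MOD m] := by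
      rw [h9]
      refine Nat.ModEq.add ih3 (h7.trans ?_)
      show (p * u) % m = 1 % m
      rw [hp, Nat.mod_eq_of_lt (by omega)]
    exact Nat.ModEq.add_right_cancel' 1 h10

end SEM

open SEM in
theorem sem : St_SEM := by
  intro m u X p S P hm hne h1 h2 hmp hpX hpu h4 h5 v hv hvX
  -- the smallest element
  obtain ⟨q0, hq0, hmin⟩ : ∃ q0 ∈ S, ∀ q ∈ S, q0 ≤ q :=
    ⟨S.min' hne, S.min'_mem hne, fun q hq => S.min'_le q hq⟩
  obtain ⟨q1, hq1, hq1'⟩ := h2 2 Nat.prime_two q0 hq0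
  have h01 : q0 < q1 := by
    rcases (hmin q1 hq1).eq_or_lt with h | h
    · exfalso
      apply hq1'
      rw [h]
      simp
    · exact h
  obtain ⟨hq0m, hq0X, hq0u⟩ := h1 q0 hq0
  have hX3 : 3 ≤ X := by omega
  have hdvd : ∀ q ∈ S, (m : ℤ) ∣ (q : ℤ) - q0 := by
    intro q hq
    have h6 : q ≡ q0 [MOD m] := by
      show q % m = q0 % m
      rw [(h1 q hq).2.2, hq0u]
    exact (Nat.modEq_iff_dvd.1 h6.symm)
  obtain ⟨z, hz⟩ := bez m S q0 hdvd (fun l hl => h2 l hl q0 hq0)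
  have hcard : S.card ≤ X := by
    have : S ⊆ Finset.Ioc 0 X := by
      intro q hq
      rw [Finset.mem_Ioc]
      have := h1 q hq
      omega
    have h6 := Finset.card_le_card this
    simpa using h6
  -- the number of steps
  obtain ⟨E, hE⟩ : ∃ E : ℕ, E + 1 = p * q0 := ⟨p * q0 - 1, by
    have : 0 < p * q0 := Nat.mul_pos (by omega) (by omega)
    omega⟩
  have hE3 : 3 * 3 ≤ E + 1 := by
    rw [hE]
    exact Nat.mul_le_mul (by omega) (by omega)
  have hEX : E + 1 ≤ X * X := by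
    rw [hE]
    exact Nat.mul_le_mul hpX hq0X
  have hpow : q0 + X ^ 3 ≤ v := by
    refine le_trans ?_ hvX
    have e1 : X ^ 6 = X ^ 3 * X ^ 3 := by ring
    have e2 : 27 ≤ X ^ 3 := by
      calc 27 = 3 ^ 3 := by norm_num
        _ ≤ X ^ 3 := Nat.pow_le_pow_left hX3 3
    have e3 : X ≤ X ^ 3 := Nat.le_self_pow (by norm_num) X
    have e4 : 27 * X ^ 3 ≤ X ^ 3 * X ^ 3 := Nat.mul_le_mul_right _ e2
    omega
  obtain ⟨j, hj⟩ : ∃ j, j = (v - q0 - X ^ 3) / E := ⟨_, rfl⟩
  obtain ⟨t, ht⟩ : ∃ t, t = X ^ 3 + (v - q0 - X ^ 3) % E := ⟨_, rfl⟩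
  have hE0 : 0 < E := by omega
  have hvt : v = q0 + t + E * j := by
    have := Nat.mod_add_div (v - q0 - X ^ 3) E
    rw [ht, hj]
    omega
  have htlt : t < X ^ 3 + E := by
    have := Nat.mod_lt (v - q0 - X ^ 3) hE0
    omega
  have htm : (m : ℤ) ∣ (t : ℤ) := by
    have h6 : (m : ℤ) ∣ (v : ℤ) - q0 := by
      have h7 : v ≡ q0 [MOD m] := by
        show v % m = q0 % m
        rw [hv, hq0u]
      exact Nat.modEq_iff_dvd.1 h7.symm
    have h7 : (m : ℤ) ∣ (E : ℤ) := by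
      have h8 : p * q0 ≡ 1 [MOD m] := by
        have h9 : p * q0 ≡ p * u [MOD m] := Nat.ModEq.mul_left p hq0u
        refine h9.trans ?_
        show (p * u) % m = 1 % m
        rw [hpu, Nat.mod_eq_of_lt (by omega)]
      have h9 := Nat.modEq_iff_dvd.1 h8.symm
      rw [← hE] at h9
      push_cast at h9
      simpa using h9
    have h8 : (t : ℤ) = ((v : ℤ) - q0) - E * j := by
      rw [hvt]
      push_cast
      ring
    rw [h8]
    exact dvd_sub h6 (h7.mul_right _)
  obtain ⟨x, hx⟩ := rep m X S q0 q1 hq1 h01 (fun q hq => ⟨hmin q hq, (h1 q hq).2.1⟩) hcard z hz t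
    htm (by rw [ht]; push_cast; have : (0 : ℤ) ≤ ((v - q0 - X ^ 3 : ℕ) : ℤ) % (E : ℤ) :=
              Int.emod_nonneg _ (by omega)
            linarith)
  -- number of summands
  obtain ⟨s, hs⟩ : ∃ s, s = ∑ q ∈ S.erase q0, x q := ⟨_, rfl⟩
  have hs2 : 2 * (s : ℤ) ≤ t := by
    rw [hx, ← Finset.add_sum_erase _ _ hq0, sub_self, mul_zero, zero_add, hs]
    push_cast
    rw [Finset.mul_sum]
    refine Finset.sum_le_sum fun q hq => ?_
    have h6 := Finset.ne_of_mem_erase hq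
    have h7 := Finset.mem_of_mem_erase hq
    have h8 : (2 : ℤ) ≤ (q : ℤ) - q0 := by
      have h9 := Int.le_of_dvd (by have := hmin q h7; omega) (hdvd q h7)
      omega
    rw [mul_comm]
    exact mul_le_mul_of_nonneg_left h8 (by positivity)
  have hsX : s ≤ X ^ 3 := by
    have h6 : X * X ≤ X ^ 3 := by
      calc X * X = X * X * 1 := by ring
        _ ≤ X * X * X := Nat.mul_le_mul_left _ (by omega)
        _ = X ^ 3 := by ring
    omega
  have hjX : X ^ 3 ≤ j := by
    rw [hj, Nat.le_div_iff_mul_le hE0]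
    -- X^3 * E + X^3 + q0 ≤ X^6
    have h6 : X ^ 3 * E + X ^ 3 + q0 ≤ X ^ 6 := by
      have e1 : X ^ 3 * (E + 1) ≤ X ^ 3 * (X * X) := Nat.mul_le_mul_left _ hEX
      have e2 : X ^ 3 * (X * X) + X ^ 5 ≤ X ^ 6 := by
        calc X ^ 3 * (X * X) + X ^ 5 = 2 * X ^ 5 := by ring
          _ ≤ X * X ^ 5 := Nat.mul_le_mul_right _ (by omega)
          _ = X ^ 6 := by ring
      have e3 : X ≤ X ^ 5 := Nat.le_self_pow (by norm_num) X
      have e4 : X ^ 3 * (E + 1) = X ^ 3 * E + X ^ 3 := by ring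
      omega
    omega
  have hsj : s ≤ 1 + p * j := by
    have : j ≤ p * j := Nat.le_mul_of_pos_left j (by omega)
    omega
  -- the multiset
  obtain ⟨y, hy⟩ : ∃ y : ℕ → ℕ, y = fun q => if q = q0 then 1 + p * j - s else x q := ⟨_, rfl⟩
  obtain ⟨M, hM⟩ : ∃ M : Multiset ℕ, M = ∑ q ∈ S, y q • {q} := ⟨_, rfl⟩
  have hMc : M.card = 1 + p * j := by
    rw [hM, Multiset.card_sum, ← Finset.add_sum_erase _ _ hq0]
    have e1 : ∀ q ∈ S.erase q0, Multiset.card (y q • ({q} : Multiset ℕ)) = x q := by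
      intro q hq
      rw [Multiset.card_nsmul, Multiset.card_singleton, mul_one, hy]
      simp only [if_neg (Finset.ne_of_mem_erase hq)]
    rw [Finset.sum_congr rfl e1, ← hs, Multiset.card_nsmul, Multiset.card_singleton, hy]
    simp only [if_true]
    omega
  have hMS : ∀ q ∈ M, q ∈ S := by
    intro q hq
    rw [hM, Multiset.mem_sum] at hq
    obtain ⟨a, ha, hqa⟩ := hq
    have := Multiset.mem_of_mem_nsmul hqa
    rw [Multiset.mem_singleton] at this
    rwa [this]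
  have hMs : M.sum = (1 + p * j) * q0 + t := by
    have e0 : M.sum = ∑ q ∈ S, y q * q := by
      rw [hM, Multiset.sum_sum]
      refine Finset.sum_congr rfl fun q _ => ?_
      rw [Multiset.sum_nsmul, Multiset.sum_singleton, smul_eq_mul]
    have e1 : ((M.sum : ℕ) : ℤ) = ((1 + p * j : ℕ) : ℤ) * q0 + t := by
      rw [e0, hx, ← Finset.add_sum_erase _ _ hq0, ← Finset.add_sum_erase _ _ hq0, sub_self,
        mul_zero, zero_add]
      have e2 : ∑ q ∈ S.erase q0, y q * q = ∑ q ∈ S.erase q0, x q * q := by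
        refine Finset.sum_congr rfl fun q hq => ?_
        rw [hy]
        simp only [if_neg (Finset.ne_of_mem_erase hq)]
      have e3 : y q0 = 1 + p * j - s := by
        rw [hy]
        simp
      rw [e2, e3]
      have e4 : ((1 + p * j : ℕ) : ℤ) = ((1 + p * j - s : ℕ) : ℤ) + (s : ℤ) := by
        have : 1 + p * j = (1 + p * j - s) + s := by omega
        exact_mod_cast this
      rw [e4, hs]
      push_cast
      rw [add_mul, Finset.sum_mul, add_assoc, ← Finset.sum_add_distrib]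
      congr 1
      refine Finset.sum_congr rfl fun q _ => ?_
      ring
    exact_mod_cast e1
  obtain ⟨-, hP, -⟩ := gen m u p S P hm (fun q hq => ⟨(h1 q hq).1, (h1 q hq).2.2⟩) hpu h4 h5 j
    M.toList (by rw [Multiset.length_toList, hMc])
    (fun q hq => hMS q (Multiset.mem_toList.1 hq))
  rw [Multiset.sum_toList, hMs] at hP
  have hfin : (1 + p * j) * q0 + t - j = v := by
    rw [hvt]
    have e1 : (1 + p * j) * q0 = q0 + (p * q0) * j := by ring
    rw [e1, ← hE, add_mul, one_mul]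
    omega
  rwa [hfin] at hP

end Pool.Agent.W372.MH
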